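import Pool.Agent.H72.QS.Sta
import Pool.Agent.H72.HQ.UnF

/-!
# The definitions of `Sta.lean` and those used in the proof
-/

open NumberField Module Polynomial
open Pool.Agent.H7.Artin Pool.Agent.H72.EG Pool.Agent.H72.HP
open scoped Nat

namespace Pool.Agent.H72.QS

set_option linter.unusedSectionVars false

theorem iInf_ker {G : Type} [Group G] {V : Type} [AddCommGroup V] [Module ℂ V]
    (ρ : Representation ℂ G V) (ε : G → ℂ) (v : V) :
    v ∈ (⨅ g : G, LinearMap.ker (ρ g - ε g • (1 : Module.End ℂ V)) : Submodule ℂ V) ↔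
      ∀ g, ρ g v = ε g • v := by
  rw [Submodule.mem_iInf]
  refine forall_congr' fun g => ?_
  rw [LinearMap.mem_ker, LinearMap.sub_apply, LinearMap.smul_apply, Module.End.one_apply,
    sub_eq_zero]

theorem mult_one {G : Type} [Group G] {V : Type} [AddCommGroup V] [Module ℂ V]
    (ρ : Representation ℂ G V) : mult ρ (fun _ => 1) = invDim ρ := by
  have h : (⨅ g : G, LinearMap.ker (ρ g - (fun _ : G => (1 : ℂ)) g • (1 : Module.End ℂ V)) :
      Submodule ℂ V) = ρ.invariants := by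
    ext v
    rw [iInf_ker, Representation.mem_invariants]
    simp only [one_smul]
  unfold mult invDim
  rw [h]

theorem mult_hom {G : Type} [Group G] {V : Type} [AddCommGroup V] [Module ℂ V]
    (ρ : Representation ℂ G V) (ε : G →* ℂˣ) (ε' : G → ℂ) (hε : ∀ g, ε' g = (ε g : ℂˣ)) :
    mult ρ ε' = HQ.epDim ρ ε := by
  have h : (⨅ g : G, LinearMap.ker (ρ g - ε' g • (1 : Module.End ℂ V)) : Submodule ℂ V) =
      HQ.epart ρ ε := by
    ext v
    rw [iInf_ker]
    refine forall_congr' fun g => ?_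
    rw [hε]
  unfold mult HQ.epDim
  rw [h]

section

variable {F L : Type} [Field F] [NumberField F] [Field L] [NumberField L] [Algebra F L]
  [IsGalois F L]

/-- the same data -/
def up (x : GalRep F L) : HQ.FR F L := ⟨x.K, x.V, x.ρ⟩

theorem up_inv (x : GalRep F L) : (up x).inv = x.inv := (mult_one x.ρ).symm

theorem up_deg (x : GalRep F L) : (up x).deg = x.deg := rfl

theorem up_lf (x : GalRep F L) (s : ℂ) : (up x).Lf s = x.lfun s := rfl

theorem up_sg (f : F[X]) [f.IsSplittingField F L] (x : GalRep F L) :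
    HQ.FR.sg f (up x) = x.sgn f := by
  refine (mult_hom x.ρ (HQ.sgnK f x.K) _ fun g => ?_).symm
  rfl

theorem map_up {α : Type} (g : HQ.FR F L → α) (g' : GalRep F L → α) (h : ∀ x, g (up x) = g' x)
    (A : List (GalRep F L)) : (A.map up).map g = A.map g' := by
  rw [List.map_map]
  exact List.map_congr_left fun x _ => h x

theorem invDim_one {G : Type} [Group G] : invDim (oneRep (1 : G →* ℂˣ)) = 1 := by
  have h4 : (oneRep (1 : G →* ℂˣ)).invariants = ⊤ := by
    rw [eq_top_iff]
    intro v _ g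
    rw [oneRep_eq]
    change ((((1 : G →* ℂˣ) g : ℂˣ) : ℂ) • v) = v
    rw [MonoidHom.one_apply, Units.val_one, one_smul]
  unfold invDim
  rw [h4, finrank_top, Module.finrank_self]

theorem invDim_ne_one {G : Type} [Group G] {ψ : G →* ℂˣ} (hψ : ψ ≠ 1) : invDim (oneRep ψ) = 0 := by
  obtain ⟨g, hg⟩ : ∃ g, ψ g ≠ 1 := by
    by_contra hcon
    push Not at hcon
    exact hψ (MonoidHom.ext hcon)
  have h4 : (oneRep ψ).invariants = ⊥ := by
    rw [eq_bot_iff]
    intro v hv
    have h5 : oneRep ψ g v = v := hv g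
    rw [oneRep_eq] at h5
    have h6 : ((ψ g : ℂˣ) : ℂ) * v = v := h5
    have h7 : (((ψ g : ℂˣ) : ℂ) - 1) * v = 0 := by rw [sub_mul, h6, one_mul, sub_self]
    rcases mul_eq_zero.1 h7 with h8 | h8
    · exact absurd (Units.ext (sub_eq_zero.1 h8)) hg
    · exact h8
  unfold invDim
  rw [h4, finrank_bot]

theorem lift_zeta (e : List (ℂ → ℂ)) (h : ∀ f ∈ e, IsZeta F L f) :
    ∃ H : List (GalRep F L), (∀ x ∈ H, finrank ℂ x.V = 1) ∧
      (H.map GalRep.inv).sum = e.length ∧ ∀ s, prodL H s = prodAt e s := by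
  induction e with
  | nil => exact ⟨[], by simp, by simp, fun s => by simp [prodL, prodAt]⟩
  | cons f e ih =>
    obtain ⟨H, h1, h2, h3⟩ := ih fun f' hf => h f' (List.mem_cons_of_mem _ hf)
    obtain ⟨E, hE⟩ := h f List.mem_cons_self
    refine ⟨⟨E, ℂ, oneRep 1⟩ :: H, fun x hx => ?_, ?_, fun s => ?_⟩
    · rcases List.mem_cons.1 hx with rfl | hx
      · exact Module.finrank_self ℂ
      · exact h1 x hx
    · rw [List.map_cons, List.sum_cons, h2, List.length_cons, add_comm]
      congr 1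
      exact (mult_one _).trans invDim_one
    · have h4 := h3 s
      unfold prodL prodAt at h4 ⊢
      rw [List.map_cons, List.prod_cons, h4, List.map_cons, List.prod_cons, hE]
      rfl

theorem lift_char (e : List (ℂ → ℂ)) (h : ∀ f ∈ e, IsCharL F L f) :
    ∃ H : List (GalRep F L), (∀ x ∈ H, finrank ℂ x.V = 1) ∧
      (H.map GalRep.inv).sum = 0 ∧ ∀ s, prodL H s = prodAt e s := by
  induction e with
  | nil => exact ⟨[], by simp, by simp, fun s => by simp [prodL, prodAt]⟩
  | cons f e ih =>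
    obtain ⟨H, h1, h2, h3⟩ := ih fun f' hf => h f' (List.mem_cons_of_mem _ hf)
    obtain ⟨E, ψ, hψ, hE⟩ := h f List.mem_cons_self
    refine ⟨⟨E, ℂ, oneRep ψ⟩ :: H, fun x hx => ?_, ?_, fun s => ?_⟩
    · rcases List.mem_cons.1 hx with rfl | hx
      · exact Module.finrank_self ℂ
      · exact h1 x hx
    · rw [List.map_cons, List.sum_cons, h2, add_zero]
      exact (mult_one _).trans (invDim_ne_one hψ)
    · have h4 := h3 s
      unfold prodL prodAt at h4 ⊢
      rw [List.map_cons, List.prod_cons, h4, List.map_cons, List.prod_cons, hE]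
      rfl

theorem heckeQuot_of {A B : List (GalRep F L)} (h : HQ.HeckeRatioF (A.map up) (B.map up)) :
    HeckeQuot A B := by
  obtain ⟨e, l, h1, h2, h3, h4⟩ := h
  rw [map_up _ _ up_inv, map_up _ _ up_inv] at h1
  obtain ⟨H₁, g1, g2, g3⟩ := lift_zeta e h2
  obtain ⟨H₂, k1, k2, k3⟩ := lift_char l h3
  refine ⟨H₁ ++ H₂, fun x hx => ?_, ?_, fun s hs => ?_⟩
  · rcases List.mem_append.1 hx with hx | hx
    · exact g1 x hx
    · exact k1 x hx
  · rw [List.map_append, List.sum_append, g2, k2]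
    omega
  · have h5 := h4 s hs
    rw [map_up _ _ (fun x => up_lf x s), map_up _ _ (fun x => up_lf x s)] at h5
    unfold prodL at g3 k3 ⊢
    rw [List.map_append, List.prod_append, g3, k3, h5, mul_assoc]

theorem entireQuot_of {A B : List (GalRep F L)} (h : HQ.EntireRatioF (A.map up) (B.map up)) :
    EntireQuot A B := by
  obtain ⟨Λ, h1, h2⟩ := h
  refine ⟨Λ, h1, fun s hs => ?_⟩
  have h3 := h2 s hs
  rw [map_up (fun x => x.Lf s) (fun x => x.lfun s) (fun x => up_lf x s),
    map_up (fun x => x.Lf s) (fun x => x.lfun s) (fun x => up_lf x s), map_up _ _ up_inv,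
    map_up _ _ up_inv] at h3
  exact h3

theorem artin_of (x : GalRep F L) (h : ArtinHolds x.K L) : x.Artin := by
  obtain ⟨Λ, h1, h2⟩ := h x.V x.ρ
  refine ⟨Λ, h1, fun s hs => ?_⟩
  rw [h2 s hs]
  unfold GalRep.inv
  rw [mult_one]
  rfl

theorem zerosIn_of (x y : GalRep F L) (h : HQ.ZeroIncl x.K x.ρ y.K y.ρ) : ZerosIn x y := by
  intro Λ Λ' h1 h2 h3 h4 z hz
  refine h Λ Λ' h1 h2 h3 (fun s hs => ?_) z hz
  rw [h4 s hs]
  unfold GalRep.inv
  rw [mult_one]
  rfl

theorem goodFamily_of {s : HQ.FR F L → ℕ} {t : GalRep F L → ℕ} (hst : ∀ x, s (up x) = t x)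
    {δ : ℝ} {𝒦 : Set (IntermediateField F L)} (h : HQ.GoodFam s δ 𝒦) : GoodFamily t δ 𝒦 := by
  obtain ⟨h1, h2, h3⟩ := h
  refine ⟨fun A B hA hB hd hi ht => ?_, fun x hx => artin_of x (h2 x.K hx),
    fun x y hx hy hV hi ht => zerosIn_of x y (h3 (up x) (up y) hx hy hV ?_ ?_)⟩
  · have h4 := h1 (A.map up) (B.map up) (by
      rintro x (hx | hx)
      · obtain ⟨y, hy, rfl⟩ := List.mem_map.1 hx
        exact hA y hy
      · obtain ⟨y, hy, rfl⟩ := List.mem_map.1 hx
        exact hB y hy) (by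
      rw [map_up _ _ up_deg, map_up _ _ up_deg]
      exact hd) (by
      rw [map_up _ _ up_inv, map_up _ _ up_inv]
      exact hi) (by
      rw [map_up _ _ hst, map_up _ _ hst]
      exact ht)
    exact ⟨heckeQuot_of h4.1, entireQuot_of h4.2⟩
  · rw [up_inv]
    exact hi
  · rw [hst]
    exact ht

theorem almostAll_of {s : HQ.FR F L → ℕ} {t : GalRep F L → ℕ} (hst : ∀ x, s (up x) = t x)
    {m : ℕ} {δ ε : ℝ} (h : HQ.AlmostAll F L s m δ ε) : AlmostAll F L t m δ ε := by
  obtain ⟨𝒦, h1, h2⟩ := h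
  refine ⟨𝒦, goodFamily_of hst h1, fun G _ _ hG => ?_⟩
  obtain ⟨⟨K, hK, hK'⟩, h3⟩ := h2 G hG
  have := finite_fields (F := F) (L := L)
  refine ⟨?_, ?_⟩
  · have : Nonempty {K : IntermediateField F L // K ∈ 𝒦 ∧ Nonempty (Gal(L/K) ≃* G)} :=
      ⟨⟨K, hK, hK'⟩⟩
    exact Nat.card_pos
  · have h4 : numIn (Set.univ : Set (IntermediateField F L)) G = numFields F L G := by
      unfold numIn numFields
      exact Nat.card_congr (Equiv.subtypeEquivRight fun K => by simp)
    have h5 : numIn 𝒦 G + Nat.card {K : IntermediateField F L //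
        Nonempty (Gal(L/K) ≃* G) ∧ K ∉ 𝒦} = numFields F L G := by
      classical
      unfold numIn numFields
      rw [← Nat.card_sum]
      refine Nat.card_congr ?_
      refine ((Equiv.subtypeEquivRight fun K => and_comm).sumCongr (Equiv.refl _)).trans ?_
      refine ((Equiv.subtypeSubtypeEquivSubtypeInter _ _).symm.sumCongr
        (Equiv.subtypeSubtypeEquivSubtypeInter _ _).symm).trans ?_
      exact Equiv.sumCompl fun K : {K : IntermediateField F L // Nonempty (Gal(L/K) ≃* G)} =>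
        K.1 ∈ 𝒦
    rw [h4]
    have h6 : (numIn 𝒦 G : ℝ) + Nat.card {K : IntermediateField F L //
        Nonempty (Gal(L/K) ≃* G) ∧ K ∉ 𝒦} = numFields F L G := by exact_mod_cast h5
    linarith

end

end Pool.Agent.H72.QS
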