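import Pool.Agent.H72.QS.Sta
import Pool.Agent.H72.QS.Bri

/-!
# MP_d2121a_nt : Artin's holomorphy conjecture; products and quotients of Artin L-functions over different intermediate
fields of extensions with symmetric or alternating Galois group

All notions are defined in `Pool/Agent/H72/QS/Sta.lean`.  `L / F` is a Galois extension of number fields, `K` runs through
intermediate fields, `GoodFamily t δ 𝒦` is a statement on all complex representations of all groups `Gal(L/K)`, `K` in `𝒦`.

No hypothesis is made anywhere: the theorems of Artin, Brauer and Hecke used are proved in `H31/CF/Main.lean`.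
-/

open NumberField Module Polynomial
open Pool.Agent.H72.QS
open scoped Nat

namespace Pool.Agent.H72.QS.Draft

/-- `L` is the splitting field over `F` of a polynomial `f` of degree `n` and has at least `n ! / 2` automorphisms over `F`; `R` is
a set of at least `N` roots of `f`; the family of all `K` with `[L : K] ≤ m` which contain the roots outside of `R` and over which
at least `(1 - η) |R|` of the roots in `R` generate `L` is good -/
def AllFieldsPart (m : ℕ) (δ η : ℝ) (N : ℕ) : Prop :=
  ∀ (F L : Type) [Field F] [NumberField F] [Field L] [NumberField L] [Algebra F L] [IsGalois F L]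
    (f : F[X]) [f.IsSplittingField F L], (f.natDegree)! ≤ 2 * Nat.card Gal(L/F) →
    ∀ R : Set (f.rootSet L), N ≤ Nat.card R →
      GoodFamily (GalRep.sgn f) δ (richFields f R m η)

/-- if `n ≥ N`, then one good family contains almost all fields with group `G`, for every group `G` of order at most `m` -/
def AlmostAllPart (m : ℕ) (δ ε : ℝ) (N : ℕ) : Prop :=
  ∀ (F L : Type) [Field F] [NumberField F] [Field L] [NumberField L] [Algebra F L] [IsGalois F L]
    (f : F[X]) [f.IsSplittingField F L], N ≤ f.natDegree →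
    (f.natDegree)! ≤ 2 * Nat.card Gal(L/F) → AlmostAll F L (GalRep.sgn f) m δ ε

/-- the same for all extensions with Galois group `A_n`, without the sign -/
def AlternatingPart (m : ℕ) (δ ε : ℝ) (n : ℕ) : Prop :=
  ∀ (F L : Type) [Field F] [NumberField F] [Field L] [NumberField L] [Algebra F L] [IsGalois F L],
    Nonempty (Gal(L/F) ≃* alternatingGroup (Fin n)) → AlmostAll F L GalRep.inv m δ ε

/-- above every number field `k` there is such an extension `L / F` which is everywhere unramified, `F` totally complex -/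
def UnramifiedPart (m : ℕ) (δ ε : ℝ) (n : ℕ) : Prop :=
  ∀ (k : Type) [Field k] [NumberField k],
    ∃ (F L : Type) (_ : Field F) (_ : NumberField F) (_ : Field L) (_ : NumberField L)
      (_ : Algebra k F) (_ : Algebra F L) (_ : IsGalois F L), NumberField.IsTotallyComplex F ∧
      Algebra.Unramified (𝓞 F) (𝓞 L) ∧ Nonempty (Gal(L/F) ≃* alternatingGroup (Fin n)) ∧
      AlmostAll F L GalRep.inv m δ ε

theorem result (m : ℕ) (δ ε : ℝ) (hδ : 0 < δ) (hε : 0 < ε) :
    (∃ (η : ℝ) (N : ℕ), 0 < η ∧ AllFieldsPart m δ η N) ∧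
    ∃ N : ℕ, AlmostAllPart m δ ε N ∧
      ∀ n : ℕ, N ≤ n → AlternatingPart m δ ε n ∧ UnramifiedPart m δ ε n := by
  obtain ⟨η, N₀, hη, h₀⟩ := Pool.Agent.H72.HQ.fam_fields m hδ
  obtain ⟨N₁, h₁⟩ := Pool.Agent.H72.HQ.fam_almost' m hδ hε
  obtain ⟨N₂, h₂⟩ := Pool.Agent.H72.HQ.alt_almost m hδ hε
  obtain ⟨N₃, h₃⟩ := Pool.Agent.H72.HQ.unram_almost m hδ hε
  refine ⟨⟨η, N₀, hη, fun F L _ _ _ _ _ _ f _ hcard R hR => goodFamily_of (up_sg f)
    (h₀ F L f hcard R hR)⟩, N₁ + N₂ + N₃, fun F L _ _ _ _ _ _ f _ hn hcard =>
    almostAll_of (up_sg f) (h₁ F L f (by omega) hcard), fun n hn =>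
    ⟨fun F L _ _ _ _ _ _ he => almostAll_of up_inv (h₂ n (by omega) F L he), fun k _ _ => ?_⟩⟩
  obtain ⟨F, L, _, _, _, _, _, _, _, g1, g2, g3, g4⟩ := h₃ n (by omega) k
  exact ⟨F, L, inferInstance, inferInstance, inferInstance, inferInstance, inferInstance,
    inferInstance, inferInstance, g1, g2, g3, almostAll_of up_inv g4⟩

end Pool.Agent.H72.QS.Draft
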