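import Pool.Agent.H7.Artin.Defs

/-!
# Products and quotients of Artin L-functions over different intermediate fields: the definitions

`L / F` is a Galois extension of number fields.  A `GalRep F L` is an intermediate field `K` together with a finite dimensional
complex representation of `Gal(L/K)`.
-/

open NumberField Module Polynomial
open Pool.Agent.H7.Artin

namespace Pool.Agent.H72.QS

/-- The dimension of the space of the vectors `v` with `ρ(g) v = ε(g) v` for all `g`; for a one-dimensional character `ε` this is
the multiplicity of `ε` in `ρ`. -/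
noncomputable def mult {G : Type} [Group G] {V : Type} [AddCommGroup V] [Module ℂ V]
    (ρ : Representation ℂ G V) (ε : G → ℂ) : ℕ :=
  finrank ℂ (⨅ g : G, LinearMap.ker (ρ g - ε g • (1 : Module.End ℂ V)) : Submodule ℂ V)

/-- A field `K` between `F` and `L` and a finite dimensional complex representation of `Gal(L/K)`. -/
structure GalRep (F L : Type) [Field F] [Field L] [Algebra F L] where
  /-- the field -/
  K : IntermediateField F L
  /-- the space of the representation -/
  V : Type
  /-- it is a complex vector space -/
  [acg : AddCommGroup V]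
  /-- it is a complex vector space -/
  [mod : Module ℂ V]
  /-- it is finite dimensional -/
  [fin : FiniteDimensional ℂ V]
  /-- the representation -/
  ρ : Representation ℂ Gal(L/K) V

attribute [instance] GalRep.acg GalRep.mod GalRep.fin

section

variable {F L : Type} [Field F] [Field L] [Algebra F L]

/-- the degree `[K : F] dim ρ` -/
noncomputable def GalRep.deg (x : GalRep F L) : ℕ := finrank F x.K * finrank ℂ x.V

/-- the multiplicity of the trivial character, which is the dimension of the space of invariants -/
noncomputable def GalRep.inv (x : GalRep F L) : ℕ := mult x.ρ fun _ => 1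

open Classical in
/-- the multiplicity of the sign of the permutation of the roots of `f` in `L` -/
noncomputable def GalRep.sgn (f : F[X]) (x : GalRep F L) : ℕ :=
  mult x.ρ fun g => ((Equiv.Perm.sign
    (MulAction.toPermHom Gal(L/F) (f.rootSet L) (g.restrictScalars F)) : ℤ) : ℂ)

/-- the number of the roots of `f` in `R` which generate `L` over `K` -/
noncomputable def gens (f : F[X]) (R : Set (f.rootSet L)) (K : IntermediateField F L) : ℕ :=
  Nat.card {a : f.rootSet L // a ∈ R ∧ IntermediateField.adjoin K {(a : L)} = ⊤}

/-- the fields `K` with `[L : K] ≤ m` which contain all roots of `f` outside of `R` and over which at least `(1 - η) |R|` of the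
roots in `R` generate `L` -/
def richFields (f : F[X]) (R : Set (f.rootSet L)) (m : ℕ) (η : ℝ) : Set (IntermediateField F L) :=
  {K | finrank K L ≤ m ∧ (∀ a : f.rootSet L, a ∉ R → (a : L) ∈ K) ∧
    (1 - η) * Nat.card R ≤ gens f R K}

/-- the number of the fields `K` in `𝒦` with `Gal(L/K)` isomorphic to `G` -/
noncomputable def numIn (𝒦 : Set (IntermediateField F L)) (G : Type) [Group G] : ℕ :=
  Nat.card {K : IntermediateField F L // K ∈ 𝒦 ∧ Nonempty (Gal(L/K) ≃* G)}

end

section

variable {F L : Type} [Field F] [NumberField F] [Field L] [NumberField L] [Algebra F L]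
  [IsGalois F L]

/-- the Artin L-function over `K` (the Euler product, for `Re s > 1`) -/
noncomputable def GalRep.lfun (x : GalRep F L) (s : ℂ) : ℂ := artinL x.K L x.ρ s

/-- the product of the L-functions in a list -/
noncomputable def prodL (A : List (GalRep F L)) (s : ℂ) : ℂ := (A.map fun x => x.lfun s).prod

/-- **Artin's conjecture for `L(s, ρ)`**: `(s - 1) ^ d L(s, ρ)`, `d` the multiplicity of the trivial character in `ρ`, extends to
an entire function. -/
def GalRep.Artin (x : GalRep F L) : Prop :=
  ∃ Λ : ℂ → ℂ, Differentiable ℂ Λ ∧ ∀ s : ℂ, 1 < s.re → Λ s = (s - 1) ^ x.inv * x.lfun s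

/-- **The quotient of the product of the L-functions in `A` by the product of those in `B` is a product of Hecke
L-functions**: L-functions of one-dimensional characters of groups `Gal(L/E)`, `E` between `F` and `L`; the number of the trivial
characters among them is the difference of the sums of the multiplicities of the trivial character in `A` and `B`. -/
def HeckeQuot (A B : List (GalRep F L)) : Prop :=
  ∃ H : List (GalRep F L), (∀ x ∈ H, finrank ℂ x.V = 1) ∧
    (A.map GalRep.inv).sum = (B.map GalRep.inv).sum + (H.map GalRep.inv).sum ∧
    ∀ s : ℂ, 1 < s.re → prodL A s = prodL B s * prodL H s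

/-- **This quotient is entire** after multiplication with `(s - 1) ^ d`, `d` the difference of the sums of the multiplicities of
the trivial character. -/
def EntireQuot (A B : List (GalRep F L)) : Prop :=
  ∃ Λ : ℂ → ℂ, Differentiable ℂ Λ ∧ ∀ s : ℂ, 1 < s.re →
    Λ s * prodL B s = (s - 1) ^ ((A.map GalRep.inv).sum - (B.map GalRep.inv).sum) * prodL A s

/-- **Every zero of `L(s, x)` is a zero of `(s - 1) ^ d L(s, y)`**, `d` the multiplicity of the trivial character in `y`, for all
entire continuations of the two functions. -/
def ZerosIn (x y : GalRep F L) : Prop :=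
  ∀ Λ Λ' : ℂ → ℂ, Differentiable ℂ Λ → Differentiable ℂ Λ' →
    (∀ s : ℂ, 1 < s.re → Λ s = x.lfun s) →
    (∀ s : ℂ, 1 < s.re → Λ' s = (s - 1) ^ y.inv * y.lfun s) → ∀ z : ℂ, Λ z = 0 → Λ' z = 0

/-- **A good family of fields.** For all representations of all groups `Gal(L/K)`, `K` in `𝒦`:
(1) for two lists `A` and `B` of them (`B` may be empty) the quotient of the products of the L-functions is a product of Hecke
L-functions and entire up to the pole at `1`, if the degree of `B` is at most `1 - δ` times the degree of `A`, and the
multiplicities of the trivial character and the numbers `t` are in sum not larger for `B` than for `A`;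
(2) Artin's conjecture holds;
(3) if the trivial character does not occur in `x` and `t x = 0`, then every zero of `L(s, x)` is a zero of `L(s, y)` for every
nonzero `y`. -/
def GoodFamily (t : GalRep F L → ℕ) (δ : ℝ) (𝒦 : Set (IntermediateField F L)) : Prop :=
  (∀ A B : List (GalRep F L), (∀ x ∈ A, x.K ∈ 𝒦) → (∀ x ∈ B, x.K ∈ 𝒦) →
    ((B.map GalRep.deg).sum : ℝ) ≤ (1 - δ) * (A.map GalRep.deg).sum →
    (B.map GalRep.inv).sum ≤ (A.map GalRep.inv).sum → (B.map t).sum ≤ (A.map t).sum →
    HeckeQuot A B ∧ EntireQuot A B) ∧
  (∀ x : GalRep F L, x.K ∈ 𝒦 → x.Artin) ∧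
  ∀ x y : GalRep F L, x.K ∈ 𝒦 → y.K ∈ 𝒦 → Nontrivial y.V → x.inv = 0 → t x = 0 → ZerosIn x y

/-- **Almost all fields**: some good family contains, for every group `G` of order at most `m`, at least one field `K` with
`Gal(L/K)` isomorphic to `G`, and all but a proportion `ε` of these fields. -/
def AlmostAll (F L : Type) [Field F] [NumberField F] [Field L] [NumberField L] [Algebra F L]
    [IsGalois F L] (t : GalRep F L → ℕ) (m : ℕ) (δ ε : ℝ) : Prop :=
  ∃ 𝒦 : Set (IntermediateField F L), GoodFamily t δ 𝒦 ∧
    ∀ (G : Type) [Group G] [Finite G], Nat.card G ≤ m →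
      0 < numIn 𝒦 G ∧ (1 - ε) * numIn (Set.univ : Set (IntermediateField F L)) G ≤ numIn 𝒦 G

end

end Pool.Agent.H72.QS
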